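import Pool.Agent.RHO.Stmts3

/-!
# MP_ca8ef3_an, stage 2: rows GBT, CEL, PT1
-/

set_option autoImplicit false

namespace Pool.Agent.RHO.H02c

open Finset

theorem sum_zmod2 (x : ZMod 2) : ∑ c : ZMod 2, (x + c) = 1 := by
  revert x
  decide

theorem gbt : GBTStmt := by
  intro ι _ _ m d τ p hτ
  by_contra hcon
  push Not at hcon
  refine hτ fun f hf => ?_
  have key : ∀ z, ∑ b : Fin m → ZMod 2, ∏ j, (p j z + b j) = 1 := by
    intro z
    have h := Finset.prod_univ_sum (fun _ : Fin m => (univ : Finset (ZMod 2)))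
      (fun j c => p j z + c)
    rw [Fintype.piFinset_univ] at h
    rw [← h]
    exact Finset.prod_eq_one fun j _ => sum_zmod2 _
  have h1 : pr τ f = ∑ b : Fin m → ZMod 2, pr (fun z => τ z * ∏ j, (p j z + b j)) f := by
    unfold pr
    rw [Finset.sum_comm]
    refine Finset.sum_congr rfl fun z _ => ?_
    have : ∀ b : Fin m → ZMod 2, (τ z * ∏ j, (p j z + b j)) * f z =
        (τ z * f z) * ∏ j, (p j z + b j) := fun b => mul_right_comm _ _ _
    simp only [this]
    rw [← Finset.mul_sum, key, mul_one]
  rw [h1]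
  exact Finset.sum_eq_zero fun b _ => hcon b f hf

theorem card_avoid {C : Type} [Fintype C] [DecidableEq C] (m : ℕ) (b : C → Fin m → ZMod 2) :
    (univ.filter fun β : Fin m → C → ZMod 2 => ∀ c, (fun j => β j c) ≠ b c).card =
      (2 ^ m - 1) ^ Fintype.card C := by
  have h1 : (univ.filter fun β : Fin m → C → ZMod 2 => ∀ c, (fun j => β j c) ≠ b c).card =
      (Fintype.piFinset fun c => (univ : Finset (Fin m → ZMod 2)).erase (b c)).card := by
    refine Finset.card_bij (fun β _ => fun c j => β j c) ?_ ?_ ?_
    · intro β hβ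
      rw [Finset.mem_filter] at hβ
      rw [Fintype.mem_piFinset]
      intro c
      exact Finset.mem_erase.mpr ⟨hβ.2 c, Finset.mem_univ _⟩
    · intro β _ β' _ h
      funext j c
      exact congrFun (congrFun h c) j
    · intro γ hγ
      rw [Fintype.mem_piFinset] at hγ
      refine ⟨fun j c => γ c j, ?_, rfl⟩
      rw [Finset.mem_filter]
      exact ⟨Finset.mem_univ _, fun c => (Finset.mem_erase.mp (hγ c)).1⟩
  rw [h1, Fintype.card_piFinset]
  have h2 : ∀ c, ((univ : Finset (Fin m → ZMod 2)).erase (b c)).card = 2 ^ m - 1 := by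
    intro c
    rw [Finset.card_erase_of_mem (Finset.mem_univ _), Finset.card_univ, Fintype.card_fun,
      ZMod.card, Fintype.card_fin]
  rw [Finset.prod_congr rfl fun c _ => h2 c, Finset.prod_const, Finset.card_univ]

theorem cel (hR : RMBStmt) (hG : GBTStmt) : CELStmt := by
  classical
  intro ι _ _ C _ _ m k k1 h τ a hk hk1 ha hd hv
  obtain ⟨hmono, hmul, _⟩ := hR ι
  -- the cell functions as elements of the space of polynomials
  let as : C → RM ι k := fun c => ⟨a c, hmono h k hk (ha c)⟩
  let dl : (Fin m → C → ZMod 2) → (Fin m → RM ι k) := fun β j => ∑ c, β j c • as c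
  set G : Finset (Fin m → RM ι k) := univ.filter fun q => Van (τ * wp q) k1 with hGdef
  have hcell : ∀ (p : Fin m → RM ι k) (β : Fin m → C → ZMod 2) (j : Fin m) (z : Pt ι) (c : C),
      a c z ≠ 0 → (((p + dl β) j : RM ι k) : Fn ι) z = (p j : Fn ι) z + β j c := by
    intro p β j z c hc
    have h1 : (((p + dl β) j : RM ι k) : Fn ι) = (p j : Fn ι) + ∑ c', β j c' • a c' := by
      simp [dl, as]
    have h2 : a c z = 1 := by
      have : ∀ x : ZMod 2, x ≠ 0 → x = 1 := by decide
      exact this _ hc
    rw [h1, Pi.add_apply, Finset.sum_apply, Finset.sum_eq_single c]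
    · rw [Pi.smul_apply, h2, smul_eq_mul, mul_one]
    · intro c' _ hne
      rw [Pi.smul_apply]
      have : a c' z = 0 := by
        by_contra h0
        exact hne (hd c' c z h0 hc)
      rw [this, smul_zero]
    · intro hc'
      exact absurd (Finset.mem_univ c) hc'
  -- for each p few β
  have hfew : ∀ p : Fin m → RM ι k,
      (univ.filter fun β : Fin m → C → ZMod 2 => (p + dl β) ∈ G).card ≤
        (2 ^ m - 1) ^ Fintype.card C := by
    intro p
    have hex : ∀ c, ∃ b : Fin m → ZMod 2,
        ¬ Van (fun z => (τ * a c) z * ∏ j, ((p j : Fn ι) z + b j)) (k1 - h) :=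
      fun c => hG ι m (k1 - h) (τ * a c) (fun j => (p j : Fn ι)) (hv c)
    choose b hb using hex
    rw [← card_avoid m b]
    refine Finset.card_le_card fun β hβ => ?_
    rw [Finset.mem_filter] at hβ ⊢
    refine ⟨Finset.mem_univ _, fun c hc => hb c fun f hf => ?_⟩
    have hV : Van (τ * wp (p + dl β)) k1 := (Finset.mem_filter.mp hβ.2).2
    have hf' : a c * f ∈ RM ι k1 := by
      have := hmul h (k1 - h) (a c) f (ha c) hf
      rwa [Nat.add_sub_cancel' hk1] at this
    rw [← hV (a c * f) hf']
    unfold pr
    refine Finset.sum_congr rfl fun z _ => ?_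
    simp only [Pi.mul_apply]
    by_cases h0 : a c z = 0
    · rw [h0]
      ring
    · have hw : wp (p + dl β) z = ∏ j, ((p j : Fn ι) z + b c j) := by
        unfold wp
        refine Finset.prod_congr rfl fun j _ => ?_
        rw [hcell p β j z c h0]
        rw [← congrFun hc j]
      rw [hw]
      ring
  -- double counting
  have hcount : (Fintype.card (Fin m → C → ZMod 2)) * G.card ≤
      Fintype.card (Fin m → RM ι k) * (2 ^ m - 1) ^ Fintype.card C := by
    have h1 : ∀ β : Fin m → C → ZMod 2, (univ.filter fun p => (p + dl β) ∈ G).card = G.card := by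
      intro β
      refine Finset.card_bij (fun p _ => p + dl β) ?_ ?_ ?_
      · intro p hp
        exact (Finset.mem_filter.mp hp).2
      · intro p _ p' _ hpp
        exact add_right_cancel hpp
      · intro q hq
        refine ⟨q - dl β, ?_, sub_add_cancel _ _⟩
        rw [Finset.mem_filter, sub_add_cancel]
        exact ⟨Finset.mem_univ _, hq⟩
    have h2 : ∑ β : Fin m → C → ZMod 2, (univ.filter fun p => (p + dl β) ∈ G).card =
        ∑ p : Fin m → RM ι k, (univ.filter fun β : Fin m → C → ZMod 2 => (p + dl β) ∈ G).card := by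
      simp only [Finset.card_filter]
      exact Finset.sum_comm
    calc (Fintype.card (Fin m → C → ZMod 2)) * G.card
        = ∑ β : Fin m → C → ZMod 2, (univ.filter fun p => (p + dl β) ∈ G).card := by
          rw [Finset.sum_congr rfl fun β _ => h1 β, Finset.sum_const, Finset.card_univ,
            smul_eq_mul]
      _ = ∑ p : Fin m → RM ι k,
          (univ.filter fun β : Fin m → C → ZMod 2 => (p + dl β) ∈ G).card := h2
      _ ≤ ∑ _p : Fin m → RM ι k, (2 ^ m - 1) ^ Fintype.card C :=
          Finset.sum_le_sum fun p _ => hfew p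
      _ = _ := by rw [Finset.sum_const, Finset.card_univ, smul_eq_mul]
  have hcb : Fintype.card (Fin m → C → ZMod 2) = (2 ^ m) ^ Fintype.card C := by
    rw [Fintype.card_fun, Fintype.card_fun, ZMod.card, Fintype.card_fin, ← pow_mul, ← pow_mul,
      mul_comm]
  have hN : (0 : ℝ) < (Fintype.card (Fin m → RM ι k) : ℝ) := by
    exact_mod_cast Fintype.card_pos
  have hpv : pv m k k1 τ = (G.card : ℝ) / (Fintype.card (Fin m → RM ι k) : ℝ) := by
    unfold pv
    rw [hGdef]
  rw [hpv, div_le_iff₀ hN]
  rw [hcb] at hcount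
  have hreal : ((2 : ℝ) ^ m) ^ Fintype.card C * (G.card : ℝ) ≤
      (Fintype.card (Fin m → RM ι k) : ℝ) * ((2 : ℝ) ^ m - 1) ^ Fintype.card C := by
    have h1 : (1 : ℕ) ≤ 2 ^ m := Nat.one_le_two_pow
    have := (Nat.cast_le (α := ℝ)).mpr hcount
    push_cast [Nat.cast_sub h1] at this
    exact this
  have h2m : (0 : ℝ) < (2 : ℝ) ^ m := by positivity
  have hq : (1 - 1 / (2 : ℝ) ^ m) ^ Fintype.card C =
      ((2 : ℝ) ^ m - 1) ^ Fintype.card C / ((2 : ℝ) ^ m) ^ Fintype.card C := by
    rw [← div_pow]
    congr 1
    field_simp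
  rw [hq, div_mul_eq_mul_div, le_div_iff₀ (by positivity)]
  linarith

theorem pt1 (hR : RMBStmt) : PT1Stmt := by
  intro ι _ _ d σ c hV hn
  have hmem : ∀ A : Finset ι, ∀ e, A.card ≤ e → mon A ∈ RM ι e := fun A e hA =>
    (hR ι).1 A.card e hA ((hR ι).2.2.1 A)
  have h1 : ∀ A : Finset ι, A.card ≤ d → pr σ (mon A) = pr σ 1 * mon A c := by
    intro A
    induction A using Finset.induction_on with
    | empty =>
      intro _
      have : (mon (∅ : Finset ι)) = (1 : Fn ι) := by
        funext z
        simp [mon]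
      rw [this]
      simp
    | insert i A hi ih =>
      intro hA
      rw [Finset.card_insert_of_notMem hi] at hA
      have h2 := hV i (mon A) (hmem A (d - 1) (by omega))
      have h3 := ih (by omega)
      have h4 : pr σ (mon (insert i A)) =
          pr (σ * fun z => z i + c i) (mon A) + c i * pr σ (mon A) := by
        unfold pr
        rw [Finset.mul_sum, ← Finset.sum_add_distrib]
        refine Finset.sum_congr rfl fun z _ => ?_
        have h5 : mon (insert i A) z = z i * mon A z := by
          unfold mon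
          rw [Finset.prod_insert hi]
        have h6 : ∀ x : ZMod 2, x + x = 0 := by decide
        rw [h5, Pi.mul_apply]
        have h7 := h6 (σ z * c i * mon A z)
        linear_combination -h7
      have h5 : mon (insert i A) c = c i * mon A c := by
        unfold mon
        rw [Finset.prod_insert hi]
      rw [h4, h2, h3, h5]
      ring
  have h2 : ∀ f ∈ RM ι d, pr σ f = pr σ 1 * f c := by
    intro f hf
    refine Submodule.span_induction (p := fun f _ => pr σ f = pr σ 1 * f c) ?_ ?_ ?_ ?_ hf
    · rintro f ⟨A, hA, rfl⟩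
      exact h1 A hA
    · simp [pr]
    · intro f g _ _ hf hg
      have : pr σ (f + g) = pr σ f + pr σ g := by
        unfold pr
        rw [← Finset.sum_add_distrib]
        exact Finset.sum_congr rfl fun z _ => by rw [Pi.add_apply]; ring
      rw [this, hf, hg, Pi.add_apply]
      ring
    · intro x f _ hf
      have : pr σ (x • f) = x * pr σ f := by
        unfold pr
        rw [Finset.mul_sum]
        exact Finset.sum_congr rfl fun z _ => by rw [Pi.smul_apply, smul_eq_mul]; ring
      rw [this, hf, Pi.smul_apply, smul_eq_mul]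
      ring
  have h3 : pr σ 1 = 1 := by
    have h4 : ∀ x : ZMod 2, x ≠ 0 → x = 1 := by decide
    refine h4 _ fun h0 => hn fun f hf => ?_
    rw [h2 f hf, h0, zero_mul]
  intro f hf
  rw [h2 f hf, h3, one_mul]

end Pool.Agent.RHO.H02c
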