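import Pool.Agent.RHO.Stmts3

/-!
# MP_ca8ef3_an, stage 2: row PVB
-/

set_option autoImplicit false

namespace Pool.Agent.RHO.H02c

open Finset

variable {ι : Type} [Fintype ι] [DecidableEq ι]

theorem pr_mul (τ a f : Fn ι) : pr (τ * a) f = pr τ (a * f) := by
  unfold pr
  exact Finset.sum_congr rfl fun z _ => by
    simp only [Pi.mul_apply]
    ring

theorem pr_add (τ τ' f : Fn ι) : pr (τ + τ') f = pr τ f + pr τ' f := by
  unfold pr
  rw [← Finset.sum_add_distrib]
  exact Finset.sum_congr rfl fun z _ => by
    simp only [Pi.add_apply]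
    ring

theorem wp_mem (hR : RMBStmt) (k : ℕ) : ∀ (m : ℕ) (q : Fin m → RM ι k), wp q ∈ RM ι (k * m) := by
  intro m
  induction m with
  | zero =>
    intro q
    have h : wp q = 1 := by
      funext z
      simp [wp]
    rw [h, Nat.mul_zero]
    exact (hR ι).2.2.2.1
  | succ m ih =>
    intro q
    have h : wp q = (q 0 : Fn ι) * wp (fun j : Fin m => q j.succ) := by
      funext z
      simp only [wp, Pi.mul_apply]
      rw [Fin.prod_univ_succ]
    rw [h]
    have h2 := (hR ι).2.1 k (k * m) _ _ (q 0).2 (ih fun j => q j.succ)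
    rwa [show k + k * m = k * (m + 1) by ring] at h2

theorem eq_of_add_zero (x y : ZMod 2) (h : x + y = 0) : x = y := by
  revert x y
  decide

theorem pvb (hR : RMBStmt) : PVBStmt := by
  classical
  intro ι _ _ m k k1 τ
  have hN : ∀ m : ℕ, (0 : ℝ) < (Fintype.card (Fin m → RM ι k) : ℝ) := fun m => by
    exact_mod_cast Fintype.card_pos
  refine ⟨?_, ?_, ?_, ?_, ?_⟩
  · exact div_nonneg (Nat.cast_nonneg _) (Nat.cast_nonneg _)
  · unfold pv
    rw [div_le_one (hN m)]
    exact_mod_cast Finset.card_le_univ _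
  · intro τ' hV
    unfold pv
    congr 2
    congr 1
    ext q
    simp only [Finset.mem_filter, Finset.mem_univ, true_and]
    have key : ∀ f ∈ RM ι k1, pr (τ * wp q) f = pr (τ' * wp q) f := by
      intro f hf
      apply eq_of_add_zero
      rw [pr_mul, pr_mul, ← pr_add]
      apply hV
      have := (hR ι).2.1 (k * m) k1 _ _ (wp_mem hR k m q) hf
      rwa [show k * m + k1 = k1 + k * m by ring] at this
    exact ⟨fun h f hf => by rw [key f hf]; exact h f hf,
      fun h f hf => by rw [← key f hf]; exact h f hf⟩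
  · have h1 : ((univ.filter fun q : Fin (m + 1) → RM ι k => Van (τ * wp q) k1).card : ℝ) =
        ∑ p : RM ι k, ((univ.filter fun q : Fin m → RM ι k =>
          Van (τ * (p : Fn ι) * wp q) k1).card : ℝ) := by
      simp only [Finset.card_filter, Nat.cast_sum]
      rw [← Fintype.sum_prod_type']
      refine Fintype.sum_equiv (Fin.consEquiv fun _ : Fin (m + 1) => RM ι k).symm _ _ ?_
      intro q
      have h2 : wp q = ((q 0 : RM ι k) : Fn ι) * wp (fun j : Fin m => q j.succ) := by
        funext z
        simp only [wp, Pi.mul_apply]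
        rw [Fin.prod_univ_succ]
      rw [h2, ← mul_assoc]
      rfl
    unfold pv
    rw [h1]
    have hc : (Fintype.card (Fin (m + 1) → RM ι k) : ℝ) =
        (Fintype.card (Fin m → RM ι k) : ℝ) * (Fintype.card (RM ι k) : ℝ) := by
      rw [Fintype.card_fun, Fintype.card_fun, Fintype.card_fin, Fintype.card_fin, pow_succ]
      push_cast
      ring
    rw [hc, ← Finset.sum_div, div_div]
  · intro h hh a ha
    unfold pv
    refine div_le_div_of_nonneg_right ?_ (Nat.cast_nonneg _)
    refine Nat.cast_le.mpr (Finset.card_le_card fun q hq => ?_)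
    rw [Finset.mem_filter] at hq ⊢
    refine ⟨Finset.mem_univ _, fun f hf => ?_⟩
    have h2 : τ * a * wp q = τ * wp q * a := by ring
    rw [h2, pr_mul]
    apply hq.2
    have := (hR ι).2.1 h (k1 - h) _ _ ha hf
    rwa [Nat.add_sub_cancel' hh] at this

end Pool.Agent.RHO.H02c
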