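import Pool.Agent.RHO.Stmts3

set_option autoImplicit false

namespace Pool.Agent.RHO.H02c

open Finset

theorem top' (hR : RMBStmt) : TOPStmt := by
  intro ι _ _ τ B B' u hO
  induction B' using Finset.induction_on with
  | empty =>
    intro _
    have h : cub (∅ : Finset ι) u * mon (B \ ∅) = mon B := by
      funext z
      simp [cub]
    rw [h]
    exact hO.1
  | insert i S hi ih =>
    intro hS
    have hiB : i ∈ B := hS (Finset.mem_insert_self i S)
    have hSB : S ⊆ B := fun x hx => hS (Finset.mem_insert_of_mem hx)
    have h1 := ih hSB
    have hsd : B \ S = insert i (B \ insert i S) := by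
      ext x
      simp only [Finset.mem_sdiff, Finset.mem_insert]
      constructor
      · rintro ⟨hx, hxS⟩
        by_cases h : x = i
        · exact Or.inl h
        · exact Or.inr ⟨hx, fun h' => h'.elim h hxS⟩
      · rintro (rfl | ⟨hx, hx2⟩)
        · exact ⟨hiB, hi⟩
        · exact ⟨hx, fun h' => hx2 (Or.inr h')⟩
    have hni : i ∉ B \ insert i S := by simp
    have h2 : cub (insert i S) u * mon (B \ insert i S) =
        cub S u * mon (B \ S) + (u i + 1) • (cub S u * mon (B \ insert i S)) := by
      funext z
      simp only [Pi.mul_apply, Pi.add_apply, Pi.smul_apply, smul_eq_mul]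
      have e1 : cub (insert i S) u z = (z i + u i + 1) * cub S u z := by
        unfold cub
        rw [Finset.prod_insert hi]
      have e2 : mon (B \ S) z = z i * mon (B \ insert i S) z := by
        rw [hsd]
        unfold mon
        rw [Finset.prod_insert hni]
      rw [e1, e2]
      ring
    have hadd : ∀ f g : Fn ι, ∀ c : ZMod 2, pr τ (f + c • g) = pr τ f + c * pr τ g := by
      intro f g c
      unfold pr
      rw [Finset.mul_sum, ← Finset.sum_add_distrib]
      refine Finset.sum_congr rfl fun z _ => ?_
      simp only [Pi.add_apply, Pi.smul_apply, smul_eq_mul]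
      ring
    rw [h2, hadd, h1]
    have h3 : cub S u * mon (B \ insert i S) ∈ RM ι (B.card - 1) := by
      have h4 := (hR ι).2.1 S.card (B \ insert i S).card _ _ ((hR ι).2.2.2.2.2.2.1 S u)
        ((hR ι).2.2.1 (B \ insert i S))
      have hc : (B \ insert i S).card = B.card - (S.card + 1) := by
        rw [Finset.card_sdiff_of_subset hS, Finset.card_insert_of_notMem hi]
      have hle : S.card + 1 ≤ B.card := by
        rw [← Finset.card_insert_of_notMem hi]
        exact Finset.card_le_card hS
      refine (hR ι).1 _ _ ?_ h4
      omega
    have hpos : 0 < B.card := Finset.card_pos.mpr ⟨i, hiB⟩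
    rw [hO.2 (B.card - 1) (by omega) _ h3, mul_zero, add_zero]

end Pool.Agent.RHO.H02c
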