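import Pool.Agent.Helper2_RHO3.PSE
import Pool.Agent.Helper2_RHO3.HSK
import Pool.Agent.Helper2_RHO3.GBT
import Pool.Agent.Helper2_RHO3.PVB
import Pool.Agent.Helper56_RHO3.RMB
import Pool.Agent.Helper10_RHO3.RMC
import Pool.Agent.Helper25_RHO3.ORD
import Pool.Agent.RHO.DUA
import Pool.Agent.Helper10_RHO3.PVE
import Pool.Agent.Helper18_RHO3.HI1
import Pool.Agent.Helper17_RHO3.HI2
import Pool.Agent.Helper18_RHO3.HIG
import Pool.Agent.Helper18_RHO3.LOW
import Pool.Agent.Helper15_RHO3.PRJ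
import Pool.Agent.Helper53_RHO3.Max
import Pool.Agent.Helper77_RHO3.PTS
import Pool.Agent.Helper18_RHO3.REM
import Pool.Agent.Helper18_RHO3.INV
import Pool.Agent.Helper33_RHO3.GCO
import Pool.Agent.Helper92_RHO3.TRL
import Pool.Agent.Helper92_RHO3.MG1
import Pool.Agent.Helper85_RHO3.Mg3
import Pool.Agent.Helper77_RHO3.MG4
import Pool.Agent.Helper56_RHO3.SMB
import Pool.Agent.Helper33_RHO3.KSY
import Pool.Agent.Helper9_RHO3.KEX
import Pool.Agent.Helper9_RHO3.KIN
import Pool.Agent.Helper10_RHO3.BDT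
import Pool.Agent.RHO.NBC
import Pool.Agent.Helper54_RHO3.CRD
import Pool.Agent.Helper54_RHO3.NM2

import Pool.Agent.Helper56_RHO3.QDF
import Pool.Agent.Helper75_RHO3.AVS
import Pool.Agent.Helper75_RHO3.NM1
import Pool.Agent.Helper65_RHO3.MG2
import Pool.Agent.Helper86_RHO3.SUR
import Pool.Agent.Helper75_RHO3.GRA
import Pool.Agent.Helper2_RHO3.TOP

/-!
# MP_ca8ef3_an, stage 2: existence of the polynomial kernel system (final assembly)
-/

set_option autoImplicit false

namespace Pool.Agent.RHO.H02c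

/-- The kernel system exists, given the rows TOP, SUR, GRA. -/
theorem fin0 (top : TOPStmt) (sur : SURStmt) (gra : GRAStmt) : HSKStmt := by
  have rmb := H56c.rmb
  have rmc := H10c.rmc rmb
  have ord := H25c.ord
  have dua' := dua rmb
  have pve := H10c.pve dua' sur
  have pvb' := pvb rmb
  have cel' := cel rmb gbt
  have hi1 := H18c.hi1 rmb top cel'
  have hi2 := H17c.hi2 rmb
  have hig := H18c.hig rmb ord pvb' hi1 hi2
  have low := H18c.low rmb ord pvb' cel' hig
  have max' := H53c.max rmb H15c.prjS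
  have pts := H77c.pts rmb max' (pt1 rmb)
  have rem := H18c.rem rmb ord top
  have inv := H18c.inv low pts rem
  have ksy := H33c.ksy H33c.gco
  have qdf := H56c.qdf dua'
  have avs := H75c.avs rmb qdf
  have kex := H9c.kex qdf pvb' pve
  have kin := H9c.kin inv qdf pvb' pve
  have bdt := H10c.bdt rmc dua' qdf
  have nbc' := nbc rmc qdf
  have crd := H54c.crd qdf
  exact hsk gra (pse qdf avs pvb' kex kin bdt nbc') ksy crd H75c.nm1 H54c.nm2

/-- The kernel system exists: `HasK a (2 ^ (730 a ^ 3))` for all `a ≥ 4`. -/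
theorem hsk_final : HSKStmt :=
  fin0 (top' H56c.rmb) (H86c.sur (dua H56c.rmb))
    (H75c.gra H92c.trl H92d.mg1 H65c.mg2 (H77c.mg4 H85c.mg3) H56c.smb)

end Pool.Agent.RHO.H02c
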