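import Pool.Agent.RHO.Stmts3

/-!
# MP_ca8ef3_an, stage 2: row PSE
-/

set_option autoImplicit false

namespace Pool.Agent.RHO.H02c

open Finset

theorem abs_sg2 (c : ZMod 2) : |sg2 c| = 1 := by
  unfold sg2
  split_ifs <;> simp

theorem pse (hQ : QDFStmt) (hA : AVSStmt) (hB : PVBStmt) (hX : KEXStmt) (hI : KINStmt)
    (hT : BDTStmt) (hN : NBCStmt) : PSEStmt := by
  intro ι _ _ D m k t h T G hm hk hth hT1 h2t hnum
  obtain ⟨_, _, _, hTT, hsd, huq, _⟩ := hQ ι (4 * k + k * m)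
  have hTT' : ∀ S : Fin D → Qd ι (4 * k + k * m), S + S = 0 := fun S => funext fun i => hTT (S i)
  have h1 : (2 : ℕ) ^ (k + 1) ≤ 2 ^ (4 * k + k * m + 1) :=
    Nat.pow_le_pow_right (by norm_num) (by omega)
  have h3 : (2 : ℕ) ^ (k + 1) + 2 ≤ 2 ^ (4 * k + k * m + 1) := by
    have ha : (2 : ℕ) ^ (k + 2) ≤ 2 ^ (4 * k + k * m + 1) :=
      Nat.pow_le_pow_right (by norm_num) (by
        have : 0 ≤ k * m := Nat.zero_le _
        omega)
    have hb : 2 ≤ 2 ^ (k + 1) := by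
      calc 2 = 2 ^ 1 := by norm_num
        _ ≤ 2 ^ (k + 1) := Nat.pow_le_pow_right (by norm_num) (by omega)
    have hc : (2 : ℕ) ^ (k + 2) = 2 ^ (k + 1) + 2 ^ (k + 1) := by ring
    omega
  refine ⟨{
    σ := fun ω x => sgT ω x.1.2
    K := fun x y => KT m k (4 * k) (x.1.2 + y.1.2)
    abs_σ := ?_
    avg := ?_
    K_nonneg := ?_
    α := ea
    β := eb G.s
    hαβ := ?_
    gir := G.gir
    vx := fun x => x.1.1
    lab := lb G.s
    lab_inc := ?_
    lab_inj := ?_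
    nb := fun x i => ⟨(ot G.s x.1.1 i, x.1.2 + chn (4 * k + k * m) {lb G.s x.1.1 i}),
      (hN ι D (4 * k + k * m) G.s G.aff).2 x.1 i x.2⟩
    rep := fun x y Z => x.1.2 + y.1.2 = chn (4 * k + k * m) Z
    rep_nb := ?_
    rep_symm := ?_
    rep_trans := ?_
    rep_uniq := ?_
    rep_K := ?_
    K_rep := ?_
    rep_bd := ?_
    base := ⟨(Sum.inl 0, 0), (hN ι D (4 * k + k * m) G.s G.aff).1⟩ }⟩
  · intro ω x
    unfold sgT
    rw [Finset.abs_prod]
    exact Finset.prod_eq_one fun i _ => abs_sg2 _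
  · intro x y
    exact hA ι D m k (4 * k) x.1.2 y.1.2
  · intro x y
    exact Finset.prod_nonneg fun i _ => (hB ι m k (4 * k) _).1
  · intro e
    exact Sum.inl_ne_inr
  · rintro (p | l) i
    · exact Or.inl rfl
    · refine Or.inr ?_
      change Sum.inr (G.s i ((G.s i).symm l)) = Sum.inr l
      rw [Equiv.apply_symm_apply]
  · rintro (p | l) i j hij
    · exact congrArg Prod.snd hij
    · exact congrArg Prod.snd hij
  · intro u i
    change u.1.2 + (u.1.2 + chn (4 * k + k * m) {lb G.s u.1.1 i}) = _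
    rw [← add_assoc, hTT', zero_add]
  · intro x y Z hZ
    exact (add_comm _ _).trans hZ
  · intro x y z Z Z' hZ hZ'
    rw [hsd, ← hZ, ← hZ']
    have : x.1.2 + y.1.2 + (y.1.2 + z.1.2) = x.1.2 + z.1.2 + (y.1.2 + y.1.2) := by abel
    rw [this, hTT', add_zero]
  · intro x y Z Z' hZ hZ' hc
    exact huq D Z Z' (hZ.symm.trans hZ') (by omega)
  · intro x y Z hZ hc
    change KT m k (4 * k) (x.1.2 + y.1.2) = _
    rw [hZ]
    exact hX ι D m k (4 * k) Z (by omega) (by omega)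
  · intro x y hxy
    exact hI ι D m k t h (x.1.2 + y.1.2) hm hk hth hnum hxy
  · intro x y Z hZ hc v
    exact hT ι D (4 * k + k * m) G.s x.1 y.1 Z G.aff x.2 y.2 hZ (by omega) v

end Pool.Agent.RHO.H02c
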